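import Pool.Agent.H247.CB.Stm

/-!
# CB ZD (helper189 for helper247): invariant clopen neighbourhoods of periodic orbits
-/

set_option autoImplicit false

open scoped Manifold ContDiff Topology
open Filter Set Metric Polynomial

universe u

namespace Pool.Agent.H189.CB

/-- a clopen set between a finite subset and an open set -/
theorem exC {X : Type u} [MetricSpace X] [CompactSpace X] (E : Set X) (hE : IsClosed E)
    (hT : IsTotallyDisconnected E) (O : Set X) (hO : IsOpen O) (m : ℕ) (a : ℕ → X)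
    (ha : ∀ i, a i ∈ E ∩ O) : ∃ C : Set X, C ⊆ E ∩ O ∧ IsClosed C ∧ IsClosed (E \ C) ∧
      ∀ i < m, a i ∈ C := by
  have hc : CompactSpace E := isCompact_iff_compactSpace.1 hE.isCompact
  have ht : TotallyDisconnectedSpace E := totallyDisconnectedSpace_subtype_iff.2 hT
  have h1 : ∀ i, ∃ V : Set E, IsClopen V ∧ (⟨a i, (ha i).1⟩ : E) ∈ V ∧
      V ⊆ (Subtype.val : E → X) ⁻¹' O := fun i =>
    compact_exists_isClopen_in_isOpen (hO.preimage continuous_subtype_val) (ha i).2
  choose V hV1 hV2 hV3 using h1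
  have hU : IsClopen (⋃ i ∈ Finset.range m, V i) :=
    isClopen_biUnion_finset fun i _ => hV1 i
  have hcl : IsClosedMap (Subtype.val : E → X) := hE.isClosedEmbedding_subtypeVal.isClosedMap
  refine ⟨Subtype.val '' (⋃ i ∈ Finset.range m, V i), ?_, hcl _ hU.1, ?_, ?_⟩
  · rintro _ ⟨y, hy, rfl⟩
    refine ⟨y.2, ?_⟩
    obtain ⟨i, hi⟩ := mem_iUnion.1 hy
    obtain ⟨-, hi⟩ := mem_iUnion.1 hi
    exact hV3 i hi
  · have e : E \ Subtype.val '' (⋃ i ∈ Finset.range m, V i) =
        Subtype.val '' (⋃ i ∈ Finset.range m, V i)ᶜ := by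
      ext x
      constructor
      · rintro ⟨hx, hx'⟩
        exact ⟨⟨x, hx⟩, fun h => hx' ⟨_, h, rfl⟩, rfl⟩
      · rintro ⟨y, hy, rfl⟩
        refine ⟨y.2, ?_⟩
        rintro ⟨z, hz, hzy⟩
        exact hy (Subtype.ext hzy ▸ hz)
    rw [e]
    exact hcl _ hU.compl.1
  · intro i hi
    refine ⟨⟨a i, (ha i).1⟩, ?_, rfl⟩
    exact mem_iUnion.2 ⟨i, mem_iUnion.2 ⟨Finset.mem_range.2 hi, hV2 i⟩⟩

theorem zd (X : Type u) [MetricSpace X] [CompactSpace X] (F : X ≃ₜ X) (E : Set X)
    (hE : IsClosed E) (hT : IsTotallyDisconnected E) (hF : ∀ x ∈ E, F x ∈ E)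
    (hP : ∀ x ∈ E, ∃ m : ℕ, 1 ≤ m ∧ F^[m] x = x) (p : X) (hp : p ∈ E) (O : Set X)
    (hO : IsOpen O) (hpO : ∀ i : ℕ, F^[i] p ∈ O) :
    ∃ W : Set X, W ⊆ E ∩ O ∧ IsClosed W ∧ IsClosed (E \ W) ∧ p ∈ W ∧
      ∀ x ∈ W, F x ∈ W ∧ F.symm x ∈ W := by
  have hFi : ∀ (i : ℕ), ∀ x ∈ E, F^[i] x ∈ E := by
    intro i
    induction i with
    | zero => exact fun x hx => hx
    | succ i ih =>
      intro x hx
      rw [Function.iterate_succ_apply']
      exact hF _ (ih x hx)
  have hli : ∀ (i : ℕ) (x : X), F.symm^[i] (F^[i] x) = x := by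
    intro i x
    exact (Function.LeftInverse.iterate (F.symm_apply_apply) i) x
  obtain ⟨m, hm, hpm⟩ := hP p hp
  obtain ⟨C, hCO, hC, hEC, hCa⟩ := exC E hE hT O hO m (fun i => F^[i] p)
    (fun i => ⟨hFi i p hp, hpO i⟩)
  have hCp : ∀ i, F^[i] p ∈ C := by
    intro i
    have h1 : Function.IsPeriodicPt F m p := hpm
    rw [← h1.iterate_mod_apply i]
    exact hCa _ (Nat.mod_lt _ hm)
  have hCE : C ⊆ E := fun x hx => (hCO hx).1
  have hcF : Continuous F := F.continuous
  have hcS : ∀ j : ℕ, Continuous (F.symm^[j]) := fun j => F.symm.continuous.iterate j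
  -- a bound for the exit time
  have hk : ∃ k : ℕ, ∀ z : X, F z ∈ E → (∀ j ≤ k, F.symm^[j] z ∈ C) → F z ∈ C := by
    by_contra hcon
    push Not at hcon
    have h1 : (⋂ k : ℕ, {z : X | F z ∈ E \ C ∧ ∀ j ≤ k, F.symm^[j] z ∈ C}).Nonempty := by
      have hcl : ∀ k : ℕ, IsClosed {z : X | F z ∈ E \ C ∧ ∀ j ≤ k, F.symm^[j] z ∈ C} := by
        intro k
        have e : {z : X | F z ∈ E \ C ∧ ∀ j ≤ k, F.symm^[j] z ∈ C} =
            F ⁻¹' (E \ C) ∩ ⋂ j : ℕ, ⋂ _ : j ≤ k, F.symm^[j] ⁻¹' C := by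
          ext z
          simp only [mem_ofPred_eq, mem_inter_iff, mem_preimage, mem_iInter]
        rw [e]
        exact (hEC.preimage hcF).inter
          (isClosed_iInter fun j => isClosed_iInter fun _ => hC.preimage (hcS j))
      refine IsCompact.nonempty_iInter_of_sequence_nonempty_isCompact_isClosed _ ?_ ?_
        (hcl 0).isCompact hcl
      · rintro k z ⟨h2, h3⟩
        exact ⟨h2, fun j hj => h3 j (by omega)⟩
      · intro k
        obtain ⟨z, h2, h3, h4⟩ := hcon k
        exact ⟨z, ⟨h2, h4⟩, h3⟩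
    obtain ⟨z, hz⟩ := h1
    rw [mem_iInter] at hz
    have hz0 : z ∈ C := (hz 0).2 0 le_rfl
    obtain ⟨q, hq, hzq⟩ := hP z (hCE hz0)
    have h2 : F.symm^[q - 1] z ∈ C := (hz (q - 1)).2 (q - 1) le_rfl
    have h3 : F.symm^[q - 1] z = F z := by
      have h4 : F^[q] z = F^[q - 1] (F z) := by
        rw [← Function.iterate_succ_apply F (q - 1) z]
        congr 1
        congr 1
        omega
      have h5 : z = F^[q - 1] (F z) := by rw [← h4, hzq]
      conv_lhs => rw [h5]
      exact hli _ _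
    rw [h3] at h2
    exact (hz 0).1.2 h2
  obtain ⟨k, hk⟩ := hk
  have hall : ∀ y ∈ E, (∀ j ≤ k, F^[j] y ∈ C) → ∀ i, ∀ j ≤ k + i, F^[j] y ∈ C := by
    intro y hy h i
    induction i with
    | zero => exact h
    | succ i ih =>
      intro j hj
      rcases Nat.lt_or_ge (k + i) j with h1 | h1
      · have h2 : j = (k + i) + 1 := by omega
        rw [h2, Function.iterate_succ_apply']
        refine hk _ (hF _ (hFi _ _ hy)) fun l hl => ?_
        have h3 : F^[k + i] y = F^[l] (F^[k + i - l] y) := by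
          rw [← Function.iterate_add_apply]
          have h4 : k + i = l + (k + i - l) := by omega
          rw [← h4]
        rw [h3, hli]
        exact ih (k + i - l) (by omega)
      · exact ih j h1
  have hall' : ∀ y ∈ E, (∀ j ≤ k, F^[j] y ∈ C) → ∀ j, F^[j] y ∈ C := fun y hy h j =>
    hall y hy h j j (by omega)
  refine ⟨{y | y ∈ E ∧ ∀ j ≤ k, F^[j] y ∈ C}, ?_, ?_, ?_, ⟨hp, fun j _ => hCp j⟩, ?_⟩
  · rintro y ⟨hy, h⟩
    exact hCO (h 0 (Nat.zero_le _))
  · have e : {y | y ∈ E ∧ ∀ j ≤ k, F^[j] y ∈ C} = E ∩ ⋂ j : ℕ, ⋂ _ : j ≤ k, F^[j] ⁻¹' C := by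
      ext z
      simp only [mem_ofPred_eq, mem_inter_iff, mem_preimage, mem_iInter]
    rw [e]
    exact hE.inter (isClosed_iInter fun j => isClosed_iInter fun _ =>
      hC.preimage (hcF.iterate j))
  · have e : E \ {y | y ∈ E ∧ ∀ j ≤ k, F^[j] y ∈ C} =
        ⋃ j ∈ Finset.range (k + 1), (E ∩ F^[j] ⁻¹' (E \ C)) := by
      ext z
      simp only [Set.mem_sdiff, mem_ofPred_eq, mem_iUnion, mem_inter_iff, mem_preimage]
      constructor
      · rintro ⟨hz, h⟩
        by_contra hcon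
        apply h
        refine ⟨hz, fun j hj => ?_⟩
        by_contra hj'
        exact hcon ⟨j, Finset.mem_range.2 (by omega), hz, hFi j z hz, hj'⟩
      · rintro ⟨j, hj, hz, h1, h2⟩
        refine ⟨hz, fun h => h2 (h.2 j ?_)⟩
        have := Finset.mem_range.1 hj
        omega
    rw [e]
    exact isClosed_biUnion_finset fun j _ => hE.inter (hEC.preimage (hcF.iterate j))
  · rintro x ⟨hx, h⟩
    have hj := hall' x hx h
    constructor
    · refine ⟨hF x hx, fun j _ => ?_⟩
      rw [← Function.iterate_succ_apply]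
      exact hj _
    · obtain ⟨q, hq, hxq⟩ := hP x hx
      have h3 : F.symm x = F^[q - 1] x := by
        have h4 : F^[q] x = F (F^[q - 1] x) := by
          rw [← Function.iterate_succ_apply' F (q - 1) x]
          congr 1
          congr 1
          omega
        have h5 : F.symm (F^[q] x) = F^[q - 1] x := by rw [h4, F.symm_apply_apply]
        rw [hxq] at h5
        exact h5
      rw [h3]
      refine ⟨hFi _ _ hx, fun j _ => ?_⟩
      rw [← Function.iterate_add_apply]
      exact hj _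

theorem main : Pool.Agent.H247.CB.S_ZD.{u} := by
  intro X _ _ F E hE hT hF hP p hp O hO hpO
  exact zd X F E hE hT hF hP p hp O hO hpO

end Pool.Agent.H189.CB
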